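import Pool.Agent.Helper75.PM.Stm
import Pool.Agent.Helper75.Jen.Approx

/-! Project PM, package CO1: an entire function of small growth, real on the real axis, positive at
`1`, with all zeros in `Re z ≤ 0` has nonnegative Taylor coefficients at `0`. -/

set_option autoImplicit false

open Polynomial Complex Filter Topology Metric

namespace Pool.Agent.Helper63.PM

open H370 H370.Loc
open Pool.Agent.Helper75.Jen (Pr Pr_eval Pf_conj Pf_mem_zero ratio_exp eps_tendsto)

/-- real polynomials with all zeros in the left half plane, positive at `1` -/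
structure GH (p : ℂ[X]) : Prop where
  sym : ∀ z, p.eval (starRingEnd ℂ z) = starRingEnd ℂ (p.eval z)
  roots : ∀ z, p.eval z = 0 → z.re ≤ 0
  pos : 0 < (p.eval 1).re

/-- all coefficients are real and nonnegative -/
def NN (p : ℂ[X]) : Prop := ∀ n, 0 ≤ (p.coeff n).re ∧ (p.coeff n).im = 0

lemma NN.mul {p q : ℂ[X]} (hp : NN p) (hq : NN q) : NN (p * q) := by
  intro n
  rw [Polynomial.coeff_mul]
  constructor
  · rw [Complex.re_sum]
    refine Finset.sum_nonneg fun x _ => ?_
    rw [Complex.mul_re, (hp x.1).2, zero_mul, sub_zero]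
    exact mul_nonneg (hp _).1 (hq _).1
  · rw [Complex.im_sum]
    refine Finset.sum_eq_zero fun x _ => ?_
    rw [Complex.mul_im, (hp x.1).2, (hq x.2).2, mul_zero, zero_mul, add_zero]

lemma nn_lin {v : ℂ} (h1 : v.re ≤ 0) (h2 : v.im = 0) : NN (X - C v) := by
  intro n
  rw [coeff_sub, coeff_X, coeff_C]
  rcases n with _ | _ | n
  · simp [h1, h2]
  · simp
  · simp

lemma nn_quad {v : ℂ} (h1 : v.re ≤ 0) : NN ((X - C v) * (X - C (starRingEnd ℂ v))) := by
  have e : (X - C v) * (X - C (starRingEnd ℂ v)) =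
      X ^ 2 - C (v + starRingEnd ℂ v) * X + C (v * starRingEnd ℂ v) := by
    rw [C_add, C_mul]; ring
  rw [e]
  have e1 : v + starRingEnd ℂ v = ((2 * v.re : ℝ) : ℂ) := Complex.add_conj v
  have e2 : v * starRingEnd ℂ v = ((Complex.normSq v : ℝ) : ℂ) := Complex.mul_conj v
  rw [e1, e2]
  intro n
  rw [coeff_add, coeff_sub, coeff_X_pow, coeff_C_mul, coeff_X, coeff_C]
  rcases n with _ | _ | _ | n
  · simp
    exact Complex.normSq_nonneg v
  · simp
    linarith
  · simp
  · simp

lemma GH.ne_zero {p : ℂ[X]} (h : GH p) : p ≠ 0 := by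
  rintro rfl
  have := h.pos
  simp at this

lemma GH.map {p : ℂ[X]} (h : ∀ z, p.eval (starRingEnd ℂ z) = starRingEnd ℂ (p.eval z)) :
    p.map (starRingEnd ℂ) = p := by
  apply Polynomial.funext
  intro z
  have h1 : (p.map (starRingEnd ℂ)).eval (starRingEnd ℂ (starRingEnd ℂ z)) =
      starRingEnd ℂ (p.eval (starRingEnd ℂ z)) := Polynomial.eval_map_apply _ _
  rw [Complex.conj_conj] at h1
  rw [h1, h, Complex.conj_conj]

lemma sym_of_map {p : ℂ[X]} (h : p.map (starRingEnd ℂ) = p) (z : ℂ) :
    p.eval (starRingEnd ℂ z) = starRingEnd ℂ (p.eval z) := by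
  have h1 : (p.map (starRingEnd ℂ)).eval (starRingEnd ℂ z) = starRingEnd ℂ (p.eval z) :=
    Polynomial.eval_map_apply _ _
  rwa [h] at h1

/-- cancellation of a factor -/
lemma GH.of_mul {d q : ℂ[X]} (h : GH (d * q)) (hd : d ≠ 0) (hdm : d.map (starRingEnd ℂ) = d)
    {r : ℝ} (hr : 0 < r) (hd1 : d.eval 1 = r) : GH q := by
  refine ⟨?_, ?_, ?_⟩
  · apply sym_of_map
    have h1 := GH.map h.sym
    rw [Polynomial.map_mul, hdm] at h1
    exact mul_left_cancel₀ hd h1
  · intro z hz
    apply h.roots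
    rw [eval_mul, hz, mul_zero]
  · have h1 := h.pos
    rw [eval_mul, hd1, Complex.re_ofReal_mul] at h1
    exact (pos_iff_pos_of_mul_pos h1).1 hr

theorem GH.nn_aux : ∀ (n : ℕ) (p : ℂ[X]), p.natDegree ≤ n → GH p → NN p := by
  intro n
  induction n using Nat.strong_induction_on with
  | _ n ih =>
    intro p hpn h
    by_cases hdeg : p.natDegree = 0
    · obtain ⟨c, rfl⟩ : ∃ c, p = C c := ⟨_, eq_C_of_natDegree_eq_zero hdeg⟩
      have h1 := h.pos
      have h2 := h.sym 0
      rw [eval_C] at h1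
      rw [eval_C, eval_C] at h2
      have h3 : c.im = 0 := Complex.conj_eq_iff_im.1 h2.symm
      intro m
      rw [coeff_C]
      split_ifs
      · exact ⟨h1.le, h3⟩
      · simp
    · have hd0 : p.degree ≠ 0 := by
        intro h0
        exact hdeg (natDegree_eq_zero_iff_degree_le_zero.2 h0.le)
      obtain ⟨v, hv⟩ := IsAlgClosed.exists_root p hd0
      have hvr : v.re ≤ 0 := h.roots v hv
      by_cases hvi : v.im = 0
      · obtain ⟨q, rfl⟩ := dvd_iff_isRoot.2 hv
        have hq0 : q ≠ 0 := by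
          rintro rfl
          exact h.ne_zero (mul_zero _)
        have hvv : starRingEnd ℂ v = v := Complex.conj_eq_iff_im.2 hvi
        have hg : GH q := by
          refine h.of_mul (X_sub_C_ne_zero v) ?_ (r := 1 - v.re) (by linarith) ?_
          · rw [Polynomial.map_sub, map_X, map_C, hvv]
          · rw [eval_sub, eval_X, eval_C]
            apply Complex.ext <;> simp [hvi]
        have hdq : (X - C v).natDegree + q.natDegree ≤ n := by
          rw [← natDegree_mul (X_sub_C_ne_zero v) hq0]; exact hpn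
        rw [natDegree_X_sub_C] at hdq
        exact (nn_lin hvr hvi).mul (ih q.natDegree (by omega) q le_rfl hg)
      · have hvc : starRingEnd ℂ v ≠ v := fun h0 => hvi (Complex.conj_eq_iff_im.1 h0)
        have hv' : p.eval (starRingEnd ℂ v) = 0 := by
          rw [h.sym]
          have : p.eval v = 0 := hv
          rw [this, map_zero]
        obtain ⟨q1, rfl⟩ := dvd_iff_isRoot.2 hv
        rw [eval_mul, eval_sub, eval_X, eval_C] at hv'
        have hq1 : q1.IsRoot (starRingEnd ℂ v) := by
          rcases mul_eq_zero.1 hv' with h0 | h0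
          · exact absurd (sub_eq_zero.1 h0) hvc
          · exact h0
        obtain ⟨q, rfl⟩ := dvd_iff_isRoot.2 hq1
        rw [← mul_assoc] at h hpn ⊢
        have hd : (X - C v) * (X - C (starRingEnd ℂ v)) ≠ 0 :=
          mul_ne_zero (X_sub_C_ne_zero _) (X_sub_C_ne_zero _)
        have hq0 : q ≠ 0 := by
          rintro rfl
          exact h.ne_zero (mul_zero _)
        have hg : GH q := by
          refine h.of_mul hd ?_ (r := Complex.normSq (1 - v)) ?_ ?_
          · rw [Polynomial.map_mul, Polynomial.map_sub, Polynomial.map_sub, map_X, map_C, map_C,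
              Complex.conj_conj, mul_comm]
          · apply Complex.normSq_pos.2
            intro h0
            rw [sub_eq_zero] at h0
            rw [← h0] at hvr
            simp at hvr
            linarith
          · rw [eval_mul, eval_sub, eval_sub, eval_X, eval_C, eval_C, ← Complex.mul_conj, map_sub,
              map_one]
        have hdq : ((X - C v) * (X - C (starRingEnd ℂ v))).natDegree + q.natDegree ≤ n := by
          rw [← natDegree_mul hd hq0]; exact hpn
        rw [natDegree_mul (X_sub_C_ne_zero _) (X_sub_C_ne_zero _), natDegree_X_sub_C,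
          natDegree_X_sub_C] at hdq
        exact (nn_quad hvr).mul (ih q.natDegree (by omega) q le_rfl hg)

theorem GH.nn {p : ℂ[X]} (h : GH p) : NN p := GH.nn_aux _ p le_rfl h

/-- one approximating polynomial -/
lemma approx_one {F : ℂ → ℂ} (hF : Differentiable ℂ F)
    (hsym : ∀ z, F (starRingEnd ℂ z) = starRingEnd ℂ (F z)) (h1 : 0 < (F 1).re)
    (hroots : ∀ z, F z = 0 → z.re ≤ 0) {r M : ℝ} (hr : 1 ≤ r) (hM : 1 ≤ M)
    (hb : ∀ z ∈ closedBall (1 : ℂ) (4 * r), ‖F z‖ ≤ M) :
    ∃ (p : ℂ[X]) (h : ℂ → ℂ), GH p ∧ (∀ z, p.eval z * h z = F z) ∧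
      ∀ z ∈ ball (1 : ℂ) (r / 4), ∃ k : ℂ, h z = cexp k ∧
        ‖k‖ ≤ 8 * (Real.log M + |Real.log ‖F 1‖| + 1) / r * ‖z - 1‖ := by
  have hF1 : F 1 ≠ 0 := by intro h; rw [h] at h1; simp at h1
  have hr0 : 0 < r := by linarith
  obtain ⟨s, g, hs, hg, hfg, hg0, -⟩ := extract (f := F) (c := 1) (r := r) (R := 4 * r) (M := M)
    hr0 (by linarith) hM (fun z _ => hF.analyticAt z) hF1 hb
  have hPs1 : Pf s 1 ≠ 0 := by
    intro h
    apply hF1
    rw [hfg 1, h, zero_mul]
  have h1mem : (1 : ℂ) ∈ closedBall (1 : ℂ) r := mem_closedBall_self hr0.le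
  have hg1 : g 1 ≠ 0 := hg0 1 h1mem
  -- conjugation symmetry of the multiset
  have hsconj : s.map (starRingEnd ℂ) = s := by
    have hball : ∀ z : ℂ, z ∈ closedBall (1 : ℂ) r → starRingEnd ℂ z ∈ closedBall (1 : ℂ) r := by
      intro z hz
      rw [mem_closedBall, dist_eq_norm] at hz ⊢
      have : starRingEnd ℂ z - 1 = starRingEnd ℂ (z - 1) := by simp
      rw [this, Complex.norm_conj]
      exact hz
    ext ρ
    by_cases hρ : ρ ∈ closedBall (1 : ℂ) r
    · have e1 : mult F ρ = s.count ρ := SP.LocAux.count_eq_mult (hF.analyticAt ρ)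
        (hg ρ (closedBall_subset_closedBall (by linarith) hρ)) (hg0 ρ hρ) hfg
      have e2 : mult F ρ = (s.map (starRingEnd ℂ)).count ρ := by
        refine SP.LocAux.count_eq_mult (g := fun z => starRingEnd ℂ (g (starRingEnd ℂ z)))
          (hF.analyticAt ρ) ?_ ?_ ?_
        · -- analytic
          have hcρ : starRingEnd ℂ ρ ∈ ball (1 : ℂ) (4 * r) := by
            have := hball ρ hρ
            rw [mem_closedBall] at this
            rw [mem_ball]
            linarith
          have hopen : IsOpen ((starRingEnd ℂ) ⁻¹' (ball (1 : ℂ) (4 * r))) :=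
            isOpen_ball.preimage Complex.continuous_conj
          have hdo : DifferentiableOn ℂ (fun z => starRingEnd ℂ (g (starRingEnd ℂ z)))
              ((starRingEnd ℂ) ⁻¹' (ball (1 : ℂ) (4 * r))) := by
            intro z hz
            have h2 : DifferentiableAt ℂ g (starRingEnd ℂ z) :=
              (hg _ (ball_subset_closedBall hz)).differentiableAt
            have h3 := h2.conj_conj
            rw [Complex.conj_conj] at h3
            exact h3.differentiableWithinAt
          exact hdo.analyticAt (hopen.mem_nhds hcρ)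
        · intro h
          rw [map_eq_zero] at h
          exact hg0 _ (hball ρ hρ) h
        · intro z
          have h2 := hfg (starRingEnd ℂ z)
          rw [hsym] at h2
          have h3 := congrArg (starRingEnd ℂ) h2
          rw [Complex.conj_conj, map_mul, Pf_conj] at h3
          exact h3
      rw [← e2, e1]
    · have e1 : s.count ρ = 0 := Multiset.count_eq_zero.2 fun h => hρ (hs ρ h).1
      have e2 : (s.map (starRingEnd ℂ)).count ρ = 0 := by
        refine Multiset.count_eq_zero.2 fun h => ?_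
        obtain ⟨a, ha, rfl⟩ := Multiset.mem_map.1 h
        exact hρ (hball a (hs a ha).1)
      rw [e1, e2]
  -- bound for g
  have hgb : ∀ w ∈ closedBall (1 : ℂ) r, ‖g w‖ ≤
      Real.exp (Real.log M + |Real.log ‖F 1‖|) * ‖g 1‖ := by
    set n := Multiset.card s with hn
    have hF1n : 0 < ‖F 1‖ := norm_pos_iff.2 hF1
    have hgc : ‖F 1‖ / r ^ n ≤ ‖g 1‖ := by
      rw [div_le_iff₀ (by positivity)]
      have h2 : ‖Pf s 1‖ ≤ r ^ n := Pf_norm_le fun ρ hρ => by
        have h3 := (hs ρ hρ).1
        rw [mem_closedBall, dist_eq_norm, norm_sub_rev] at h3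
        exact h3
      calc ‖F 1‖ = ‖g 1‖ * ‖Pf s 1‖ := by rw [hfg 1, norm_mul, mul_comm]
        _ ≤ ‖g 1‖ * r ^ n := mul_le_mul_of_nonneg_left h2 (norm_nonneg _)
    have hsph : ∀ w ∈ sphere (1 : ℂ) (3 * r), ‖g w‖ ≤ M / r ^ n := by
      intro w hw
      have h2 : r ^ n ≤ ‖Pf s w‖ := Pf_norm_ge hr0.le fun ρ hρ => by
        have h2 := (hs ρ hρ).1
        rw [mem_closedBall, dist_eq_norm] at h2
        rw [mem_sphere, dist_eq_norm] at hw
        have h3 : ‖w - 1‖ ≤ ‖w - ρ‖ + ‖ρ - 1‖ := by
          calc ‖w - 1‖ = ‖(w - ρ) + (ρ - 1)‖ := by congr 1; ring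
            _ ≤ _ := norm_add_le _ _
        linarith
      rw [le_div_iff₀ (by positivity)]
      calc ‖g w‖ * r ^ n ≤ ‖g w‖ * ‖Pf s w‖ := mul_le_mul_of_nonneg_left h2 (norm_nonneg _)
        _ = ‖F w‖ := by rw [hfg w, norm_mul, mul_comm]
        _ ≤ M := hb w (by
            rw [mem_closedBall]; rw [mem_sphere] at hw; linarith)
    have hball3 : ∀ w ∈ closedBall (1 : ℂ) (3 * r), ‖g w‖ ≤ M / r ^ n := by
      intro w hw
      refine Complex.norm_le_of_forall_mem_frontier_norm_le (U := ball (1 : ℂ) (3 * r))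
        isBounded_ball ?_ ?_ ?_
      · apply DifferentiableOn.diffContOnCl
        rw [closure_ball _ (by linarith)]
        intro x hx
        exact (hg x (closedBall_subset_closedBall (by linarith) hx)).differentiableAt.differentiableWithinAt
      · intro x hx
        rw [frontier_ball _ (by linarith)] at hx
        exact hsph x hx
      · rwa [closure_ball _ (by linarith)]
    intro w hw
    refine (hball3 w (closedBall_subset_closedBall (by linarith) hw)).trans ?_
    have h5 : M ≤ Real.exp (Real.log M + |Real.log ‖F 1‖|) * ‖F 1‖ := by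
      rw [Real.exp_add, Real.exp_log (by linarith), mul_assoc]
      have h6 : 1 ≤ Real.exp |Real.log ‖F 1‖| * ‖F 1‖ := by
        have h7 : ‖F 1‖ = Real.exp (Real.log ‖F 1‖) := (Real.exp_log hF1n).symm
        have h8 : Real.exp |Real.log ‖F 1‖| * ‖F 1‖ =
            Real.exp (|Real.log ‖F 1‖| + Real.log ‖F 1‖) := by
          rw [Real.exp_add, ← h7]
        rw [h8]
        exact Real.one_le_exp (by linarith [neg_abs_le (Real.log ‖F 1‖)])
      nlinarith
    calc M / r ^ n ≤ Real.exp (Real.log M + |Real.log ‖F 1‖|) * ‖F 1‖ / r ^ n := by gcongr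
      _ = Real.exp (Real.log M + |Real.log ‖F 1‖|) * (‖F 1‖ / r ^ n) := by ring
      _ ≤ _ := by gcongr
  have hB0 : 0 ≤ Real.log M + |Real.log ‖F 1‖| := by
    have := Real.log_nonneg hM
    positivity
  have hlog : ∀ z ∈ closedBall (1 : ℂ) (r / 4), ‖logDeriv g z‖ ≤
      8 * (Real.log M + |Real.log ‖F 1‖| + 1) / r := by
    intro z hz
    have := logDeriv_zero_free (g := g) (c := 1) (r := r) (r1 := r / 2) (r2 := r / 4)
      (B := Real.log M + |Real.log ‖F 1‖|) (by linarith) (by linarith) (by linarith) hB0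
      (hg.mono (closedBall_subset_closedBall (by linarith))) hg0 hgb hz
    refine this.trans (le_of_eq ?_)
    field_simp
    ring
  have hgd : DifferentiableOn ℂ g (ball (1 : ℂ) (r / 4)) := fun x hx =>
    (hg x (closedBall_subset_closedBall (by linarith) (ball_subset_closedBall hx))).differentiableAt.differentiableWithinAt
  have hgne : ∀ x ∈ ball (1 : ℂ) (r / 4), g x ≠ 0 := fun x hx =>
    hg0 x (closedBall_subset_closedBall (by linarith) (ball_subset_closedBall hx))
  refine ⟨C (F 1 / Pf s 1) * Pr s, fun z => g z / g 1, ⟨?_, ?_, ?_⟩, ?_, ?_⟩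
  · intro z
    simp only [eval_mul, eval_C, Pr_eval, map_mul]
    have e1 : Pf s (starRingEnd ℂ z) = starRingEnd ℂ (Pf s z) := by
      have := Pf_conj s (starRingEnd ℂ z)
      rw [Complex.conj_conj, hsconj] at this
      exact this.symm
    have e2 : starRingEnd ℂ (F 1 / Pf s 1) = F 1 / Pf s 1 := by
      have h3 : starRingEnd ℂ (F 1) = F 1 := by
        have := hsym 1
        rw [map_one] at this
        exact this.symm
      have h4 : starRingEnd ℂ (Pf s 1) = Pf s 1 := by
        have := Pf_conj s 1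
        rw [map_one, hsconj] at this
        exact this
      rw [map_div₀, h3, h4]
    rw [e1, e2]
  · intro z hz
    rw [eval_mul, eval_C, Pr_eval] at hz
    rcases mul_eq_zero.1 hz with h | h
    · exact absurd h (div_ne_zero hF1 hPs1)
    · exact hroots z (hs z (Pf_mem_zero h)).2
  · rw [eval_mul, eval_C, Pr_eval, div_mul_cancel₀ _ hPs1]
    exact h1
  · intro z
    rw [eval_mul, eval_C, Pr_eval, hfg z]
    have h3 : F 1 = Pf s 1 * g 1 := hfg 1
    rw [h3]
    field_simp
  · intro z hz
    obtain ⟨k, hk, hkn⟩ := ratio_exp hgd hgne (fun x hx => hlog x (ball_subset_closedBall hx))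
      (mem_ball_self (by linarith)) hz
    refine ⟨k, ?_, hkn⟩
    show g z / g 1 = _
    rw [hk]
    field_simp

/-- approximation by polynomials with zeros in the half plane -/
theorem approx {F : ℂ → ℂ} (hF : Differentiable ℂ F)
    (hsym : ∀ z, F (starRingEnd ℂ z) = starRingEnd ℂ (F z)) (h1 : 0 < (F 1).re)
    (hroots : ∀ z, F z = 0 → z.re ≤ 0) {C : ℝ} (hC : 0 ≤ C)
    (hgr : ∀ z, ‖F z‖ ≤ Real.exp (C * (1 + ‖z‖) ^ (3 / 5 : ℝ))) :
    ∃ P : ℕ → ℂ[X], (∀ N, GH (P N)) ∧
      TendstoLocallyUniformlyOn (fun N z => (P N).eval z) F atTop Set.univ := by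
  have hstep : ∀ N : ℕ, ∃ (p : ℂ[X]) (h : ℂ → ℂ), GH p ∧ (∀ z, p.eval z * h z = F z) ∧
      ∀ z ∈ ball (1 : ℂ) (((N : ℝ) + 1) / 4), ∃ k : ℂ, h z = cexp k ∧
        ‖k‖ ≤ 8 * (C * (6 * ((N : ℝ) + 1)) ^ (3 / 5 : ℝ) + |Real.log ‖F 1‖| + 1) / ((N : ℝ) + 1)
          * ‖z - 1‖ := by
    intro N
    have hN : (0 : ℝ) ≤ N := Nat.cast_nonneg N
    have hexp : 0 ≤ C * (6 * ((N : ℝ) + 1)) ^ (3 / 5 : ℝ) := by positivity
    have := approx_one hF hsym h1 hroots (r := (N : ℝ) + 1)
      (M := Real.exp (C * (6 * ((N : ℝ) + 1)) ^ (3 / 5 : ℝ))) (by linarith)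
      (Real.one_le_exp hexp) (fun z hz => by
        refine (hgr z).trans (Real.exp_le_exp.2 ?_)
        refine mul_le_mul_of_nonneg_left ?_ hC
        refine Real.rpow_le_rpow (by positivity) ?_ (by norm_num)
        rw [mem_closedBall, dist_eq_norm] at hz
        have : ‖z‖ ≤ ‖z - 1‖ + 1 := by
          calc ‖z‖ = ‖(z - 1) + 1‖ := by congr 1; ring
            _ ≤ ‖z - 1‖ + ‖(1 : ℂ)‖ := norm_add_le _ _
            _ = _ := by simp
        linarith)
    rwa [Real.log_exp] at this
  choose P h hgood hPh hk using hstep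
  refine ⟨P, hgood, ?_⟩
  rw [tendstoLocallyUniformlyOn_iff_forall_isCompact isOpen_univ]
  intro K _ hK
  rw [Metric.tendstoUniformlyOn_iff]
  intro ε hε
  -- K is bounded
  obtain ⟨R, hR⟩ := hK.isBounded.subset_closedBall (1 : ℂ)
  have hFc : ContinuousOn F K := hF.continuous.continuousOn
  obtain ⟨B, hB⟩ := hK.exists_bound_of_continuousOn hFc
  set eN : ℕ → ℝ := fun N => 8 * (C * (6 * ((N : ℝ) + 1)) ^ (3 / 5 : ℝ) + |Real.log ‖F 1‖| + 1) /
    ((N : ℝ) + 1) with heN
  have hlim : Tendsto (fun N => (|B| + 1) * (eN N * (|R| + 1) * 2)) atTop (𝓝 0) := by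
    have := ((eps_tendsto C |Real.log ‖F 1‖|).mul_const (|R| + 1)).mul_const 2
    have h3 := this.const_mul (|B| + 1)
    simpa using h3
  have hlim2 : Tendsto (fun N => eN N * (|R| + 1)) atTop (𝓝 0) := by
    have := ((eps_tendsto C |Real.log ‖F 1‖|).mul_const (|R| + 1))
    simpa using this
  have hN1 : ∀ᶠ N : ℕ in atTop, 4 * (|R| + 1) < (N : ℝ) + 1 := by
    have : Tendsto (fun N : ℕ => ((N : ℝ) + 1)) atTop atTop :=
      tendsto_atTop_add_const_right _ _ tendsto_natCast_atTop_atTop
    exact this.eventually_gt_atTop _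
  filter_upwards [hlim.eventually_lt_const hε, hlim2.eventually_lt_const (show (0 : ℝ) < 1 / 2 by norm_num),
    hN1] with N a1 a2 a3
  intro z hz
  have hzR : ‖z - 1‖ ≤ |R| + 1 := by
    have := hR hz
    rw [mem_closedBall, dist_eq_norm] at this
    linarith [le_abs_self R]
  obtain ⟨k, hk1, hk2⟩ := hk N z (by
    rw [mem_ball, dist_eq_norm]
    linarith)
  have heN0 : 0 ≤ eN N := by rw [heN]; positivity
  have hkb : ‖k‖ ≤ eN N * (|R| + 1) := hk2.trans (mul_le_mul_of_nonneg_left hzR heN0)
  have hk12 : ‖k‖ ≤ 1 := by linarith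
  have hP : (P N).eval z = F z * cexp (-k) := by
    rw [← hPh N z, hk1, mul_assoc, ← Complex.exp_add]
    simp
  have h5 : ‖cexp (-k) - 1‖ ≤ 2 * ‖k‖ := by
    have := Complex.norm_exp_sub_one_le (x := -k) (by rw [norm_neg]; exact hk12)
    rwa [norm_neg] at this
  rw [dist_eq_norm, hP]
  have e : F z - F z * cexp (-k) = -(F z * (cexp (-k) - 1)) := by ring
  rw [e, norm_neg, norm_mul]
  calc ‖F z‖ * ‖cexp (-k) - 1‖ ≤ (|B| + 1) * (eN N * (|R| + 1) * 2) := by
        refine mul_le_mul ?_ ?_ (norm_nonneg _) (by positivity)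
        · have := hB z hz
          linarith [le_abs_self B]
        · linarith
    _ < ε := a1


lemma conv_iter {F : ℂ → ℂ} {P : ℕ → ℂ[X]}
    (h : TendstoLocallyUniformlyOn (fun N z => (P N).eval z) F atTop Set.univ) (j : ℕ) :
    TendstoLocallyUniformlyOn (fun N z => (derivative^[j] (P N)).eval z) (iteratedDeriv j F)
      atTop Set.univ := by
  induction j with
  | zero => simpa using h
  | succ j ih =>
    have h1 := ih.deriv (Eventually.of_forall fun N =>
      ((derivative^[j] (P N)).differentiable.differentiableOn)) isOpen_univ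
    rw [iteratedDeriv_succ]
    refine h1.congr fun N z _ => ?_
    show deriv (fun z => (derivative^[j] (P N)).eval z) z = _
    rw [Function.iterate_succ_apply']
    exact Polynomial.deriv _

theorem s_cone1 : Pool.Agent.Helper75.PM.S_cone1 := by
  intro F C hF hsym h1 hroots hC hgr n
  obtain ⟨P, hP, hconv⟩ := approx hF hsym h1 hroots hC hgr
  have h2 : Tendsto (fun N => ((derivative^[n] (P N)).eval 0).re) atTop
      (𝓝 (iteratedDeriv n F 0).re) :=
    (Complex.continuous_re.tendsto _).comp ((conv_iter hconv n).tendsto_at (Set.mem_univ 0))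
  refine ge_of_tendsto' h2 fun N => ?_
  rw [← coeff_zero_eq_eval_zero, coeff_iterate_derivative, zero_add, nsmul_eq_mul,
    ← Complex.ofReal_natCast, Complex.re_ofReal_mul]
  exact mul_nonneg (Nat.cast_nonneg _) ((hP N).nn n).1

end Pool.Agent.Helper63.PM
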