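import Pool.Agent.Helper75.PM.StmL
import Pool.Agent.Helper75.Jen.XiG

/-! Project PM, package CO2: the cone criterion for the Laguerre inequalities. -/

set_option autoImplicit false
set_option maxHeartbeats 1000000

open Complex Filter Topology Metric

namespace Pool.Agent.Helper63.PM

open Pool.Agent.Helper75.Jen (fx fx_diff fx_even fx_conj fx_eq fx_zero_re Gx Gx_ne FF_sq FF_growth
  cpow_half_sq)
open Pool.Agent.Helper85.LG (Lm G xi tc G_diff G_even G_real)

/-! ### even functions as functions of the square -/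

/-- the function `f` with `f (w ^ 2) = g w` -/
noncomputable def sqf (g : ℂ → ℂ) (z : ℂ) : ℂ := g (z ^ (1 / 2 : ℂ))

variable {g : ℂ → ℂ}

lemma sqf_eq (hev : ∀ w, g (-w) = g w) {z w : ℂ} (h : w ^ 2 = z) : sqf g z = g w := by
  unfold sqf
  have h1 : (z ^ (1 / 2 : ℂ)) ^ 2 = w ^ 2 := by rw [cpow_half_sq, h]
  rcases sq_eq_sq_iff_eq_or_eq_neg.1 h1 with h2 | h2
  · rw [h2]
  · rw [h2, hev]

lemma sqf_diff (hev : ∀ w, g (-w) = g w) (hd : Differentiable ℂ g) :
    Differentiable ℂ (sqf g) := by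
  have hne : ∀ z : ℂ, z ≠ 0 → DifferentiableAt ℂ (sqf g) z := by
    intro z hz
    by_cases hs : z ∈ slitPlane
    · have h1 : DifferentiableAt ℂ (fun z : ℂ => z ^ (1 / 2 : ℂ)) z :=
        (differentiableAt_id).cpow_const hs
      exact (hd _).comp z h1
    · have hs' : -z ∈ slitPlane := by
        rw [Complex.mem_slitPlane_iff] at hs ⊢
        push Not at hs
        obtain ⟨h1, h2⟩ := hs
        left
        rw [neg_re]
        rcases lt_or_eq_of_le h1 with h3 | h3
        · linarith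
        · exfalso
          apply hz
          apply Complex.ext
          · rw [h3]; rfl
          · rw [h2]; rfl
      have h1 : DifferentiableAt ℂ (fun z : ℂ => I * (-z) ^ (1 / 2 : ℂ)) z := by
        have : DifferentiableAt ℂ (fun z : ℂ => (-z) ^ (1 / 2 : ℂ)) z :=
          (differentiableAt_id.neg).cpow_const hs'
        exact this.const_mul I
      have h2 : sqf g = fun z => g (I * (-z) ^ (1 / 2 : ℂ)) := by
        funext x
        refine sqf_eq hev ?_
        rw [mul_pow, I_sq, cpow_half_sq]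
        ring
      rw [h2]
      exact (hd _).comp z h1
  intro z
  by_cases hz : z = 0
  · subst hz
    refine (Complex.analyticAt_of_differentiable_on_punctured_nhds_of_continuousAt ?_ ?_).differentiableAt
    · filter_upwards [self_mem_nhdsWithin] with x hx
      exact hne x hx
    · have h0 : sqf g 0 = g 0 := sqf_eq hev (by norm_num)
      rw [Metric.continuousAt_iff]
      intro ε hε
      obtain ⟨δ, hδ, hd⟩ := Metric.continuousAt_iff.1 (hd.continuous.continuousAt (x := (0 : ℂ))) ε hε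
      refine ⟨δ ^ 2, by positivity, ?_⟩
      intro x hx
      rw [h0]
      unfold sqf
      apply hd
      rw [dist_zero_right] at hx ⊢
      have h1 : ‖x ^ (1 / 2 : ℂ)‖ ^ 2 = ‖x‖ := by rw [← norm_pow, cpow_half_sq]
      rw [← h1] at hx
      exact lt_of_pow_lt_pow_left₀ 2 hδ.le hx
  · exact hne z hz

/-- Taylor coefficients -/
lemma sqf_taylor (hev : ∀ w, g (-w) = g w) (hd : Differentiable ℂ g) (k : ℕ) :
    iteratedDeriv k (sqf g) 0 =
      (k.factorial : ℂ) * (iteratedDeriv (2 * k) g 0 / ((2 * k).factorial : ℂ)) := by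
  classical
  set b : ℕ → ℂ := fun j => if Even j then iteratedDeriv (j / 2) (sqf g) 0 / ((j / 2).factorial : ℂ)
    else 0 with hb
  have h1 : HasFPowerSeriesAt g
      (FormalMultilinearSeries.ofScalars ℂ (fun n ↦ iteratedDeriv n g 0 / n.factorial)) 0 :=
    AnalyticAt.hasFPowerSeriesAt (hd.analyticAt 0)
  have h2 : HasFPowerSeriesAt g (FormalMultilinearSeries.ofScalars ℂ b) 0 := by
    rw [hasFPowerSeriesAt_iff]
    refine Eventually.of_forall fun z => ?_
    rw [zero_add, ← sqf_eq hev (z := z ^ 2) (w := z) rfl]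
    have h3 := Complex.hasSum_taylorSeries_of_entire (sqf_diff hev hd) 0 (z ^ 2)
    simp only [smul_eq_mul, sub_zero] at h3
    have hinj : Function.Injective (fun n : ℕ => 2 * n) := fun a b h => by
      simpa using h
    rw [← hinj.hasSum_iff (f := fun n => z ^ n • (FormalMultilinearSeries.ofScalars ℂ b).coeff n)]
    · have e : ((fun n => z ^ n • (FormalMultilinearSeries.ofScalars ℂ b).coeff n) ∘ fun n => 2 * n) =
          fun n : ℕ => (n.factorial : ℂ)⁻¹ * ((z ^ 2) ^ n * iteratedDeriv n (sqf g) 0) := by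
        funext n
        simp only [Function.comp_apply, FormalMultilinearSeries.coeff_ofScalars, hb, smul_eq_mul]
        rw [if_pos (even_two_mul n), show 2 * n / 2 = n by omega, ← pow_mul]
        ring
      rw [e]
      exact h3
    · intro x hx
      have hodd : ¬ Even x := by
        intro he
        obtain ⟨r, hr⟩ := he
        exact hx ⟨r, by simp only; omega⟩
      rw [FormalMultilinearSeries.coeff_ofScalars, hb]
      simp [hodd]
  have h4 := h1.eq_formalMultilinearSeries h2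
  have h5 := FormalMultilinearSeries.ofScalars_series_injective ℂ ℂ h4
  have h6 := congrFun h5 (2 * k)
  simp only [hb] at h6
  rw [if_pos (even_two_mul k), show 2 * k / 2 = k by omega] at h6
  have hk : (k.factorial : ℂ) ≠ 0 := by exact_mod_cast k.factorial_ne_zero
  rw [h6]
  field_simp

/-! ### the function `G x` -/

lemma xi_fx (u : ℂ) : xi (1 / 2 + u) = fx u / 8 := by
  unfold xi fx
  ring

lemma G_fx (x : ℝ) (w : ℂ) : G x w = fx (w + x * I) * fx (w - x * I) / 64 := by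
  unfold G
  rw [show (1 / 2 + w + x * I : ℂ) = 1 / 2 + (w + x * I) by ring,
    show (1 / 2 + w - x * I : ℂ) = 1 / 2 + (w - x * I) by ring, xi_fx, xi_fx]
  ring

lemma G_conj (x : ℝ) (w : ℂ) : G x (starRingEnd ℂ w) = starRingEnd ℂ (G x w) := by
  rw [G_fx, G_fx, map_div₀, map_mul, ← fx_conj, ← fx_conj, map_add, map_sub, map_mul, conj_ofReal,
    conj_I, mul_comm (fx (starRingEnd ℂ w + _))]
  have e1 : starRingEnd ℂ w - (x : ℂ) * I = starRingEnd ℂ w + (x : ℂ) * -I := by ring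
  have e2 : starRingEnd ℂ w + (x : ℂ) * I = starRingEnd ℂ w - (x : ℂ) * -I := by ring
  have e3 : starRingEnd ℂ (64 : ℂ) = 64 := by
    rw [show (64 : ℂ) = ((64 : ℝ) : ℂ) by push_cast; rfl, conj_ofReal]
  rw [e1, e2, e3]

lemma fx_growth : ∃ C : ℝ, 0 ≤ C ∧ ∀ u : ℂ, ‖fx u‖ ≤ Real.exp (C * (1 + ‖u‖ ^ 2) ^ (3 / 5 : ℝ)) := by
  obtain ⟨C, hC, h⟩ := FF_growth
  refine ⟨C, hC, fun u => ?_⟩
  have := h (u ^ 2)
  rwa [FF_sq, norm_pow] at this

lemma G_growth (x : ℝ) : ∃ C : ℝ, 0 ≤ C ∧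
    ∀ w : ℂ, ‖G x w‖ ≤ Real.exp (C * (1 + ‖w‖ ^ 2) ^ (3 / 5 : ℝ)) := by
  obtain ⟨C, hC, h⟩ := fx_growth
  refine ⟨2 * C * (2 * (1 + x ^ 2)) ^ (3 / 5 : ℝ), by positivity, fun w => ?_⟩
  have hb : ∀ u : ℂ, ‖u‖ ≤ ‖w‖ + |x| → ‖fx u‖ ≤
      Real.exp (C * (2 * (1 + x ^ 2)) ^ (3 / 5 : ℝ) * (1 + ‖w‖ ^ 2) ^ (3 / 5 : ℝ)) := by
    intro u hu
    refine (h u).trans (Real.exp_le_exp.2 ?_)
    rw [mul_assoc, ← Real.mul_rpow (by positivity) (by positivity)]
    refine mul_le_mul_of_nonneg_left ?_ hC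
    refine Real.rpow_le_rpow (by positivity) ?_ (by norm_num)
    have h1 : ‖u‖ ^ 2 ≤ (‖w‖ + |x|) ^ 2 := pow_le_pow_left₀ (norm_nonneg _) hu 2
    have h2 : |x| ^ 2 = x ^ 2 := sq_abs x
    nlinarith [sq_nonneg (‖w‖ - |x|), mul_nonneg (sq_nonneg x) (sq_nonneg ‖w‖), norm_nonneg w,
      abs_nonneg x]
  have hxI : ‖(x : ℂ) * I‖ = |x| := by simp
  have h1 := hb (w + x * I) (by
    refine (norm_add_le _ _).trans ?_
    rw [hxI])
  have h2 := hb (w - x * I) (by
    refine (norm_sub_le _ _).trans ?_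
    rw [hxI])
  rw [G_fx, norm_div, norm_mul]
  have h64 : ‖(64 : ℂ)‖ = 64 := by norm_num
  rw [h64]
  have h3 := mul_le_mul h1 h2 (norm_nonneg _) (Real.exp_pos _).le
  rw [← Real.exp_add] at h3
  have h4 : 0 ≤ ‖fx (w + x * I)‖ * ‖fx (w - x * I)‖ := by positivity
  calc ‖fx (w + x * I)‖ * ‖fx (w - x * I)‖ / 64 ≤ ‖fx (w + x * I)‖ * ‖fx (w - x * I)‖ := by
        linarith
    _ ≤ _ := h3
    _ = _ := by congr 1; ring

/-- a zero with positive real part -/
lemma fx_zero {u : ℂ} (h : fx u = 0) (hu : 0 < u.re) : riemannZeta (1 / 2 + u) = 0 ∧ u.re < 1 / 2 := by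
  have h1 := fx_zero_re h
  rw [abs_lt] at h1
  refine ⟨?_, h1.2⟩
  have hne : u ≠ 1 / 2 := by
    rintro rfl
    have := h1.2
    norm_num at this
  rw [fx_eq h1.1 hne] at h
  exact (mul_eq_zero.1 h).resolve_left (Gx_ne h1.1 hne)

/-- no zero of `fx` in the cone at `x` -/
lemma cone_aux {x : ℝ} (hx : ∀ ρ : ℂ, riemannZeta ρ = 0 → 1 / 2 < ρ.re → ρ.re < 1 →
    |ρ.re - 1 / 2| ≤ |ρ.im - x|) {u : ℂ} (h : fx u = 0) (hu : 0 < u.re) : |u.re| ≤ |u.im - x| := by
  obtain ⟨h1, h2⟩ := fx_zero h hu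
  have h3 := hx _ h1 (by simp; linarith) (by simp; linarith)
  simpa using h3

lemma cone_aux2 {x : ℝ} (hx : ∀ ρ : ℂ, riemannZeta ρ = 0 → 1 / 2 < ρ.re → ρ.re < 1 →
    |ρ.re - 1 / 2| ≤ |ρ.im - x|) {u : ℂ} (h : fx u = 0) : |u.re| ≤ |u.im - x| := by
  rcases lt_trichotomy u.re 0 with h0 | h0 | h0
  · have h1 : fx (-(starRingEnd ℂ u)) = 0 := by rw [fx_even, fx_conj, h, map_zero]
    have h2 := cone_aux hx h1 (by simp; exact h0)
    simp only [neg_re, conj_re, neg_im, conj_im, neg_neg, abs_neg] at h2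
    exact h2
  · rw [h0, abs_zero]
    exact abs_nonneg _
  · exact cone_aux hx h h0

theorem s_cone (h : Pool.Agent.Helper75.PM.S_cone1) : Pool.Agent.Helper75.PM.S_cone := by
  intro x hx m
  obtain ⟨C, hC, hgr⟩ := G_growth x
  have key := h (sqf (G x)) C (sqf_diff (G_even x) (G_diff x)) ?_ ?_ ?_ hC ?_ m
  · rw [sqf_taylor (G_even x) (G_diff x), ← Complex.ofReal_natCast, Complex.re_ofReal_mul] at key
    have hm : (0 : ℝ) < m.factorial := by exact_mod_cast m.factorial_pos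
    exact nonneg_of_mul_nonneg_right key hm
  · intro z
    have h1 : (starRingEnd ℂ (z ^ (1 / 2 : ℂ))) ^ 2 = starRingEnd ℂ z := by
      rw [← map_pow, cpow_half_sq]
    rw [sqf_eq (G_even x) h1, G_conj]
    rfl
  · rw [sqf_eq (G_even x) (w := ((1 : ℝ) : ℂ)) (by norm_num), G_real, ofReal_re]
    have h1 : xi (1 / 2 + ((1 : ℝ) : ℂ) + x * I) ≠ 0 := by
      rw [show (1 / 2 + ((1 : ℝ) : ℂ) + x * I : ℂ) = 1 / 2 + (1 + x * I) by push_cast; ring, xi_fx]
      refine div_ne_zero (fun h0 => ?_) (by norm_num)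
      have h2 := fx_zero_re h0
      simp at h2
      norm_num at h2
    have := norm_pos_iff.2 h1
    positivity
  · intro z hz
    set w := z ^ (1 / 2 : ℂ) with hw
    have h1 : G x w = 0 := hz
    have h3 : z = w ^ 2 := (cpow_half_sq z).symm
    rw [G_fx] at h1
    have h4 : |w.re| ≤ |w.im| := by
      rcases mul_eq_zero.1 ((div_eq_zero_iff.1 h1).resolve_right (by norm_num)) with h5 | h5
      · have := cone_aux2 hx h5
        simpa using this
      · have h6 : fx (starRingEnd ℂ (w - x * I)) = 0 := by rw [fx_conj, h5, map_zero]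
        have := cone_aux2 hx h6
        simp at this
        exact this
    rw [h3, sq, mul_re]
    have h5 : w.re ^ 2 ≤ w.im ^ 2 := sq_le_sq.2 h4
    nlinarith
  · intro z
    have h1 : ‖z‖ = ‖z ^ (1 / 2 : ℂ)‖ ^ 2 := by rw [← norm_pow, cpow_half_sq]
    rw [h1]
    exact hgr _

end Pool.Agent.Helper63.PM
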